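import Pool.Agent.H81.NCH.Stmts

/-!
# NCH, module RFU: full rank of the polynomial
-/

set_option autoImplicit false

namespace Pool.Agent.H81.NCH

open Pool.Agent.H80

universe u

namespace RFU

variable {n : ℕ} [NeZero n]

/-- the number of admissible letters at a position of weight `x` -/
def cnt (m : ℕ) (x : ℤ) : ℕ := if 0 < x then m ^ (2 * x.natAbs) else 1

theorem trunc_of_lt (m : ℕ) (x : Fin n) (h : (x : ℕ) < m ^ 2) : trunc m x = x := by
  unfold trunc
  rw [if_pos h]

theorem trunc_lt (m : ℕ) (hm : 1 ≤ m) (x : Fin n) : ((trunc m x : Fin n) : ℕ) < m ^ 2 := by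
  unfold trunc
  split_ifs with h
  · exact h
  · rw [Fin.val_zero]
    positivity

/-- the letters for a position of weight `x`, as numbers -/
theorem cnt_le (m : ℕ) (hm : 1 ≤ m) (x : ℤ) (hx : |x| ≤ 2) : cnt m x ≤ m ^ 4 := by
  unfold cnt
  split_ifs with h
  · apply Nat.pow_le_pow_right hm
    have := abs_le.1 hx
    omega
  · exact Nat.one_le_pow _ _ hm

end RFU

open RFU

open Classical in
theorem rfu_thm (hPAR : PARStmt) : RFUStmt.{u} := by
  intro K _ h m n _ r hh hm hn
  obtain ⟨π, hπ1, hπ2, hπ3⟩ := hPAR h m hh hm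
  set d := dd h m with hd
  -- admissible assignments
  let A : Type := (t : Fin d) → Fin (cnt m (wt h m r t))
  have hle : ∀ t : Fin d, cnt m (wt h m r t) ≤ n := by
    intro t
    rw [hn]
    exact cnt_le m hm _ (hπ2 r t t.2).2
  let wd : A → ℕ → Fin n := fun a t =>
    if hh : t < d then Fin.castLE (hle ⟨t, hh⟩) (a ⟨t, hh⟩) else 0
  let yy : A → Fin d → Fin n := fun a t => wd a t
  let zz : A → Fin d → Fin n := fun a t => wd a (π t)
  have hext1 : ∀ (a : A) (t : ℕ), t < d → ext (yy a) t = wd a t := by
    intro a t ht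
    show (if hh : t < d then yy a ⟨t, hh⟩ else 0) = _
    rw [dif_pos ht]
  have hext2 : ∀ (a : A) (t : ℕ), t < d → ext (zz a) t = wd a (π t) := by
    intro a t ht
    show (if hh : t < d then zz a ⟨t, hh⟩ else 0) = _
    rw [dif_pos ht]
  set Mx : Matrix (Fin d → Fin n) (Fin d → Fin n) K := Matrix.of fun y z =>
    (if Valid h m (mixW h m r (ext y) (ext z)) then (1 : K) else 0) with hMx
  -- values of wd
  have hwd1 : ∀ (a : A) (t : ℕ), t < d → wt h m r t = 1 → (wd a t : ℕ) < m ^ 2 := by
    intro a t ht hw
    have h1 : (wd a t : ℕ) = (a ⟨t, ht⟩ : ℕ) := by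
      show ((if hh : t < d then Fin.castLE (hle ⟨t, hh⟩) (a ⟨t, hh⟩) else 0 : Fin n) : ℕ) = _
      rw [dif_pos ht]
      rfl
    rw [h1]
    have h2 : (a ⟨t, ht⟩ : ℕ) < cnt m (wt h m r t) := (a ⟨t, ht⟩).2
    have h3 : cnt m (wt h m r t) = m ^ 2 := by
      unfold cnt
      rw [hw]
      rfl
    omega
  have hvalid : ∀ a b : A, Valid h m (mixW h m r (ext (yy a)) (ext (zz b))) ↔ a = b := by
    intro a b
    rw [hπ3 n r (mixW h m r (ext (yy a)) (ext (zz b)))
      (by
        intro t ht h0
        unfold mixW
        rw [if_neg (by omega), if_neg (by omega), if_pos h0])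
      (by
        intro t ht h1
        unfold mixW
        rcases (abs_eq (by norm_num)).1 h1 with h2 | h2
        · rw [if_neg (by omega), if_pos h2]
          exact trunc_lt m hm _
        · rw [if_neg (by omega), if_neg (by omega), if_neg (by omega), if_pos h2]
          exact trunc_lt m hm _)]
    have hy : ∀ t < d, 0 < wt h m r t →
        mixW h m r (ext (yy a)) (ext (zz b)) t = wd a t := by
      intro t ht h0
      have h2 := (hπ2 r t ht).2
      have h2' := abs_le.1 h2
      unfold mixW
      by_cases h3 : 2 ≤ wt h m r t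
      · rw [if_pos h3, hext1 a t ht]
      · have h4 : wt h m r t = 1 := by omega
        rw [if_neg h3, if_pos h4, hext1 a t ht]
        exact trunc_of_lt m _ (hwd1 a t ht h4)
    have hz : ∀ t < d, 0 < wt h m r t →
        mixW h m r (ext (yy a)) (ext (zz b)) (π t) = wd b t := by
      intro t ht h0
      have h2 := (hπ2 r t ht)
      have h2' := abs_le.1 h2.2
      have hpt := (hπ1 t ht)
      unfold mixW
      rw [h2.1]
      by_cases h3 : wt h m r t = 2
      · rw [if_neg (by omega), if_neg (by omega), if_neg (by omega), if_neg (by omega),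
          hext2 b _ hpt.1, hpt.2]
      · have h4 : wt h m r t = 1 := by omega
        rw [if_neg (by omega), if_neg (by omega), if_neg (by omega), if_pos (by omega),
          hext2 b _ hpt.1, hpt.2]
        exact trunc_of_lt m _ (hwd1 b t ht h4)
    constructor
    · intro H
      funext t
      by_cases h0 : 0 < wt h m r t
      · have h1 := H t t.2 h0
        rw [hy t t.2 h0, hz t t.2 h0] at h1
        have h2 : ∀ c : A, wd c t = Fin.castLE (hle t) (c t) := by
          intro c
          show (if hh : (t : ℕ) < d then Fin.castLE (hle ⟨t, hh⟩) (c ⟨t, hh⟩) else 0) = _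
          rw [dif_pos t.2]
        rw [h2, h2] at h1
        exact Fin.castLE_injective (hle t) h1
      · have h1 : cnt m (wt h m r t) = 1 := by
          unfold cnt
          rw [if_neg h0]
        apply Fin.ext
        have h2 := (a t).2
        have h3 := (b t).2
        omega
    · rintro rfl
      intro t ht h0
      rw [hy t ht h0, hz t ht h0]
  have hsub : Mx.submatrix yy zz = (1 : Matrix A A K) := by
    ext a b
    rw [Matrix.submatrix_apply, Matrix.one_apply, hMx, Matrix.of_apply]
    by_cases hab : a = b
    · rw [if_pos ((hvalid a b).2 hab), if_pos hab]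
    · rw [if_neg (fun h5 => hab ((hvalid a b).1 h5)), if_neg hab]
  have hrank : Fintype.card A ≤ Mx.rank := by
    have h1 := Matrix.rank_submatrix_le Mx yy zz
    rw [hsub, Matrix.rank_one] at h1
    exact h1
  -- the number of assignments
  have hcard : Fintype.card A = m ^ absw h m r 0 d := by
    have h1 : Fintype.card A = ∏ t : Fin d, cnt m (wt h m r t) := by
      rw [Fintype.card_pi]
      simp only [Fintype.card_fin]
    have h2 : ∏ t : Fin d, cnt m (wt h m r t) = ∏ t ∈ Finset.range d, cnt m (wt h m r t) :=
      Fin.prod_univ_eq_prod_range (fun t => cnt m (wt h m r t)) d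
    have h3 : ∏ t ∈ Finset.range d, cnt m (wt h m r t) =
        m ^ ∑ t ∈ Finset.range d, (if 0 < wt h m r t then 2 * (wt h m r t).natAbs else 0) := by
      rw [← Finset.prod_pow_eq_pow_sum]
      refine Finset.prod_congr rfl (fun t _ => ?_)
      unfold cnt
      split_ifs
      · rfl
      · rw [pow_zero]
    rw [h1, h2, h3]
    congr 1
    unfold absw
    rw [← Finset.range_eq_Ico]
    have h4 : ∑ t ∈ Finset.range d, (if 0 < wt h m r t then (wt h m r t).natAbs else 0) =
        ∑ t ∈ Finset.range d, (if wt h m r t < 0 then (wt h m r t).natAbs else 0) := by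
      refine Finset.sum_nbij' π π ?_ ?_ ?_ ?_ ?_
      · intro t ht
        rw [Finset.mem_range] at ht ⊢
        exact (hπ1 t ht).1
      · intro t ht
        rw [Finset.mem_range] at ht ⊢
        exact (hπ1 t ht).1
      · intro t ht
        rw [Finset.mem_range] at ht
        exact (hπ1 t ht).2
      · intro t ht
        rw [Finset.mem_range] at ht
        exact (hπ1 t ht).2
      · intro t ht
        rw [Finset.mem_range] at ht
        rw [(hπ2 r t ht).1, Int.natAbs_neg]
        by_cases h5 : 0 < wt h m r t
        · rw [if_pos h5, if_pos (by omega)]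
        · rw [if_neg h5, if_neg (by omega)]
    have h5 : ∑ t ∈ Finset.range d, (wt h m r t).natAbs =
        ∑ t ∈ Finset.range d, (if 0 < wt h m r t then (wt h m r t).natAbs else 0) +
        ∑ t ∈ Finset.range d, (if wt h m r t < 0 then (wt h m r t).natAbs else 0) := by
      rw [← Finset.sum_add_distrib]
      refine Finset.sum_congr rfl (fun t _ => ?_)
      split_ifs <;> omega
    have h6 : ∑ t ∈ Finset.range d, (if 0 < wt h m r t then 2 * (wt h m r t).natAbs else 0) =
        2 * ∑ t ∈ Finset.range d, (if 0 < wt h m r t then (wt h m r t).natAbs else 0) := by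
      rw [Finset.mul_sum]
      refine Finset.sum_congr rfl (fun t _ => ?_)
      split_ifs <;> omega
    rw [h6, h5, ← h4]
    ring
  have hrk : rk h m r (fun w : ℕ → Fin n => if Valid h m w then (1 : K) else 0) = Mx.rank := rfl
  unfold rho
  rw [hrk, le_div_iff₀ (by positivity), one_mul]
  rw [hcard] at hrank
  exact_mod_cast hrank

end Pool.Agent.H81.NCH
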